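import Mathlib

namespace Pool.Agent.Results.MP_21a028_co.Four

/-- `CW k V E l`: the graph on `V` with adjacency `E` and labelling `l` is built with `k` labels
from single labelled vertices by disjoint union, relabelling and joining two distinct labels. -/
inductive CW (k : ℕ) : (V : Type) → (V → V → Prop) → (V → Fin k) → Prop
  | single (i : Fin k) : CW k Unit (fun _ _ => False) (fun _ => i)
  | union {V W : Type} {E : V → V → Prop} {F : W → W → Prop} {l : V → Fin k} {m : W → Fin k} :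
      CW k V E l → CW k W F m → CW k (V ⊕ W) (Sum.LiftRel E F) (Sum.elim l m)
  | relabel {V : Type} {E : V → V → Prop} {l : V → Fin k} (i j : Fin k) :
      CW k V E l → CW k V E (fun v => if l v = i then j else l v)
  | join {V : Type} {E : V → V → Prop} {l : V → Fin k} (i j : Fin k) : i ≠ j →
      CW k V E l → CW k V (fun u v => E u v ∨ (l u = i ∧ l v = j) ∨ (l u = j ∧ l v = i)) l

lemma CW.props {k : ℕ} {V : Type} {E : V → V → Prop} {l : V → Fin k} (h : CW k V E l) :
    Finite V ∧ (∀ u v, E u v → E v u) ∧ ∀ u, ¬ E u u := by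
  induction h with
  | single i => exact ⟨inferInstance, fun _ _ h => h, fun _ h => h⟩
  | union _ _ ih1 ih2 =>
    obtain ⟨f1, s1, i1⟩ := ih1
    obtain ⟨f2, s2, i2⟩ := ih2
    refine ⟨inferInstance, ?_, ?_⟩
    · rintro (u | u) (v | v) h <;> simp_all
    · rintro (u | u) <;> simp_all
  | relabel i j _ ih => exact ih
  | join i j hij _ ih =>
    obtain ⟨f1, s1, i1⟩ := ih
    refine ⟨f1, ?_, ?_⟩
    · intro u v h
      rcases h with h | h | h
      · exact Or.inl (s1 _ _ h)
      · exact Or.inr (Or.inr ⟨h.2, h.1⟩)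
      · exact Or.inr (Or.inl ⟨h.2, h.1⟩)
    · intro u h
      rcases h with h | h | h
      · exact i1 _ h
      · exact hij (h.1.symm.trans h.2)
      · exact hij (h.2.symm.trans h.1)

def Big {V : Type} (n : ℕ) (p : V → Prop) : Prop := ∃ T : Finset V, n ≤ T.card ∧ ∀ u ∈ T, p u

lemma Big.sum {V W : Type} {a b : ℕ} {p : V → Prop} {q : W → Prop} {r : V ⊕ W → Prop}
    (h1 : Big a p) (h2 : Big b q) (e1 : ∀ u, p u → r (Sum.inl u)) (e2 : ∀ u, q u → r (Sum.inr u)) :
    Big (a + b) r := by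
  obtain ⟨T, hT, hp⟩ := h1
  obtain ⟨U, hU, hq⟩ := h2
  refine ⟨T.disjSum U, by rw [Finset.card_disjSum]; omega, ?_⟩
  rintro (u | u) hu
  · exact e1 u (hp u (by simpa using hu))
  · exact e2 u (hq u (by simpa using hu))

lemma Big.zero {V : Type} (p : V → Prop) : Big 0 p := ⟨∅, by simp, by simp⟩

lemma Big.one : Big 1 (fun _ : Unit => True) := ⟨{()}, by simp, by simp⟩

lemma Big.inl {V W : Type} {a : ℕ} {p : V → Prop} {r : V ⊕ W → Prop}
    (h1 : Big a p) (e1 : ∀ u, p u → r (Sum.inl u)) : Big a r :=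
  Big.sum (b := 0) h1 (Big.zero (fun _ => False)) e1 (fun _ h => h.elim)

lemma Big.inr {V W : Type} {a : ℕ} {p : W → Prop} {r : V ⊕ W → Prop}
    (h1 : Big a p) (e1 : ∀ u, p u → r (Sum.inr u)) : Big a r := by
  have := Big.sum (r := r) (Big.zero (fun _ => False)) h1 (fun _ h => h.elim) e1
  simpa using this

def Sees {V : Type} (E : V → V → Prop) (c : V → ℕ) (v : V) : Prop :=
  ∀ a < 4, c v = a ∨ ∃ u, E v u ∧ c u = a

def Base (d h m q : ℕ) (V : Type) (E : V → V → Prop) (l : V → Fin 4) : Prop :=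
  CW 4 V E l ∧ (∀ v, l v ≠ 3) ∧ (∀ v, l v = 0 → Big h (E v)) ∧ (∀ v, l v ≠ 0 → Big d (E v)) ∧
    Big m (fun u => l u = 1) ∧ Big q (fun u => l u = 0)

def Low {V : Type} (E : V → V → Prop) (l : V → Fin 4) (c : V → ℕ) : Prop :=
  ∃ p, l p = 0 ∧ ∀ u, E p u → c u < 2

def A (d h q : ℕ) : Prop := ∃ (V : Type) (E : V → V → Prop) (l : V → Fin 4),
  Base d h 0 q V E l ∧ (∀ v, l v ≠ 1) ∧
    ∀ c : V → ℕ, (∀ v, l v = 2 → Sees E c v) → Low E l c

def B (d h m : ℕ) : Prop := ∃ (V : Type) (E : V → V → Prop) (l : V → Fin 4),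
  Base d h m d V E l ∧
    ∀ c : V → ℕ, (∀ v, l v = 2 → Sees E c v) → ∀ r, l r = 1 → c r < 2 → Low E l c

lemma Base.union {d h m q m' q' : ℕ} {V W : Type} {E : V → V → Prop} {F : W → W → Prop}
    {l : V → Fin 4} {l' : W → Fin 4} (h1 : Base d h m q V E l) (h2 : Base d h m' q' W F l') :
    Base d h (m + m') (q + q') (V ⊕ W) (Sum.LiftRel E F) (Sum.elim l l') := by
  obtain ⟨a1, a2, a3, a4, a5, a6⟩ := h1
  obtain ⟨b1, b2, b3, b4, b5, b6⟩ := h2
  refine ⟨a1.union b1, ?_, ?_, ?_, a5.sum b5 (by simp) (by simp), a6.sum b6 (by simp) (by simp)⟩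
  · rintro (v | v)
    · exact a2 v
    · exact b2 v
  · rintro (v | v) hv
    · exact (a3 v hv).inl (by simp)
    · exact (b3 v hv).inr (by simp)
  · rintro (v | v) hv
    · exact (a4 v hv).inl (by simp)
    · exact (b4 v hv).inr (by simp)

lemma A0 (d q : ℕ) : A d 0 (q + 1) := by
  have one : Base d 0 0 1 Unit (fun _ _ => False) (fun _ => 0) :=
    ⟨CW.single 0, by simp, fun _ _ => Big.zero _, by simp, Big.zero _, ⟨{()}, by simp, by simp⟩⟩
  induction q with
  | zero => exact ⟨Unit, _, _, one, by simp, fun c _ => ⟨(), rfl, by simp⟩⟩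
  | succ q ih =>
    obtain ⟨V, E, l, hb, h1, _⟩ := ih
    refine ⟨V ⊕ Unit, _, _, hb.union one, ?_, fun c _ => ⟨Sum.inr (), rfl, ?_⟩⟩
    · rintro (v | v)
      · exact h1 v
      · simp
    · rintro (v | v) <;> simp

lemma Big.mono {V : Type} {a b : ℕ} {p : V → Prop} (h : Big a p) (hab : b ≤ a) : Big b p := by
  obtain ⟨T, hT, hp⟩ := h
  exact ⟨T, hab.trans hT, hp⟩

lemma Bunion {d h m m' : ℕ} (h1 : B d h m) (h2 : B d h m') : B d h (m + m') := by
  obtain ⟨V, E, l, hb, hc⟩ := h1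
  obtain ⟨W, F, l', hb', hc'⟩ := h2
  obtain ⟨a1, a2, a3, a4, a5, a6⟩ := hb.union hb'
  refine ⟨V ⊕ W, _, _, ⟨a1, a2, a3, a4, a5, a6.mono (by omega)⟩, ?_⟩
  rintro c hs (r | r) hr hcr
  · obtain ⟨p, hp, hu⟩ := hc (fun v => c (Sum.inl v)) (fun v hv a ha => by
      have := hs (Sum.inl v) hv a ha
      simpa using this) r hr hcr
    refine ⟨Sum.inl p, hp, ?_⟩
    rintro (u | u) h
    · exact hu u (by simpa using h)
    · simp at h
  · obtain ⟨p, hp, hu⟩ := hc' (fun v => c (Sum.inr v)) (fun v hv a ha => by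
      have := hs (Sum.inr v) hv a ha
      simpa using this) r hr hcr
    refine ⟨Sum.inr p, hp, ?_⟩
    rintro (u | u) h
    · simp at h
    · exact hu u (by simpa using h)

lemma Bmany {d h : ℕ} (h1 : B d h 1) (m : ℕ) : B d h (m + 1) := by
  induction m with
  | zero => exact h1
  | succ m ih => exact Bunion ih h1

lemma addRoot {d h : ℕ} (h1 : A d h d) : B d (h + 1) 1 := by
  obtain ⟨V, E, l, ⟨a1, a2, a3, a4, a5, a6⟩, hn, hc⟩ := h1
  refine ⟨V ⊕ Unit, _, _, ⟨(a1.union (CW.single 1)).join 0 1 (by decide), ?_, ?_, ?_, ?_, ?_⟩, ?_⟩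
  · rintro (v | v)
    · exact a2 v
    · simp
  · rintro (v | v) hv
    · exact (a3 v hv).sum Big.one (fun u hu => Or.inl (by simpa using hu))
        (fun u _ => Or.inr (Or.inl ⟨hv, rfl⟩))
    · simp at hv
  · rintro (v | v) hv
    · exact (a4 v hv).inl (fun u hu => Or.inl (by simpa using hu))
    · exact a6.inl (fun u hu => Or.inr (Or.inr ⟨rfl, hu⟩))
  · exact Big.one.inr (fun _ _ => rfl)
  · exact a6.inl (fun _ h => h)
  · rintro c hs (r | r) hr hcr
    · exact (hn r hr).elim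
    · obtain ⟨p, hp, hu⟩ := hc (fun v => c (Sum.inl v)) (fun v hv a ha => by
        have := hs (Sum.inl v) hv a ha
        simpa [hv] using this)
      refine ⟨Sum.inl p, hp, ?_⟩
      rintro (u | u) h
      · exact hu u (by simpa [hp, hn u] using h)
      · exact hcr

lemma close {d h : ℕ} (h1 : B d h d) : A d h d := by
  obtain ⟨V, E, l, ⟨a1, a2, a3, a4, a5, a6⟩, hc⟩ := h1
  refine ⟨V ⊕ Unit, _, _, ⟨(((a1.union (CW.single 3)).join 1 3 (by decide)).relabel 1 2).relabel
    3 2, ?_, ?_, ?_, Big.zero _, ?_⟩, ?_, ?_⟩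
  · intro v
    generalize Sum.elim l (fun _ : Unit => (3 : Fin 4)) v = x
    revert x; decide
  · rintro (v | v) hv
    · have : l v = 0 := by
        simp only [Sum.elim_inl] at hv
        revert hv; generalize l v = x; revert x; decide
      exact (a3 v this).inl (fun u hu => Or.inl (by simpa using hu))
    · simp at hv
  · rintro (v | v) hv
    · have : l v ≠ 0 := by
        simp only [Sum.elim_inl] at hv
        revert hv; generalize l v = x; revert x; decide
      exact (a4 v this).inl (fun u hu => Or.inl (by simpa using hu))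
    · exact a5.inl (fun u hu => Or.inr (Or.inr ⟨rfl, hu⟩))
  · exact a6.inl (fun u hu => by simp [hu])
  · intro v
    generalize Sum.elim l (fun _ : Unit => (3 : Fin 4)) v = x
    revert x; decide
  · intro c hs
    have hroot : ∃ r, l r = 1 ∧ c (Sum.inl r) < 2 := by
      have h0 := hs (Sum.inr ()) (by simp) 0 (by norm_num)
      have h1 := hs (Sum.inr ()) (by simp) 1 (by norm_num)
      simp at h0 h1
      rcases h0 with h0 | ⟨r, hr, h0⟩
      · rcases h1 with h1 | ⟨r, hr, h1⟩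
        · omega
        · exact ⟨r, hr, by omega⟩
      · exact ⟨r, hr, by omega⟩
    obtain ⟨r, hr, hcr⟩ := hroot
    obtain ⟨p, hp, hu⟩ := hc (fun v => c (Sum.inl v)) (fun v hv a ha => by
      have := hs (Sum.inl v) (by simp [hv]) a ha
      simpa [hv] using this) r hr hcr
    refine ⟨Sum.inl p, by simp [hp], ?_⟩
    rintro (u | u) h
    · exact hu u (by simpa [hp] using h)
    · simp [hp] at h

lemma Aall (d h : ℕ) : A (d + 1) h (d + 1) := by
  induction h with
  | zero => exact A0 _ d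
  | succ h ih => exact close (Bmany (addRoot ih) d)

theorem result : ∀ d : ℕ, ∃ (V : Type) (_ : Finite V) (_ : Nonempty V) (G : SimpleGraph V),
    (∃ l : V → Fin 4, CW 4 V G.Adj l) ∧ (∀ v, d ≤ (G.neighborSet v).ncard) ∧
    ∀ k : ℕ, 4 ≤ k → ¬ ∃ c : V → Fin k, ∀ (a : Fin k) (v : V),
      c v = a ∨ ∃ u, G.Adj v u ∧ c u = a := by
  intro d
  obtain ⟨V, E, l, ⟨a1, a2, a3, a4, a5, a6⟩, hn, hc⟩ := Aall d (d + 1)
  obtain ⟨hf, hs, hi⟩ := a1.props
  have hne : Nonempty V := by
    obtain ⟨T, hT, _⟩ := a6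
    obtain ⟨x, _⟩ := Finset.card_pos.mp (show 0 < T.card by omega)
    exact ⟨x⟩
  refine ⟨V, hf, hne, ⟨E, ⟨fun u v => hs u v⟩, ⟨hi⟩⟩, ⟨l, a1⟩, ?_, ?_⟩
  · intro v
    have hb : Big (d + 1) (E v) := by
      by_cases h : l v = 0
      · exact a3 v h
      · exact a4 v h
    obtain ⟨T, hT, hp⟩ := hb
    calc d ≤ T.card := by omega
      _ = (T : Set V).ncard := (Set.ncard_coe_finset T).symm
      _ ≤ _ := Set.ncard_le_ncard (fun u hu => hp u hu) (Set.toFinite _)
  · rintro k hk ⟨c, hd⟩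
    have hsee : ∀ v, Sees E (fun v => (c v).val) v := by
      intro v a ha
      rcases hd ⟨a, by omega⟩ v with h | ⟨u, hu, h⟩
      · exact Or.inl (by simp [h])
      · exact Or.inr ⟨u, hu, by simp [h]⟩
    obtain ⟨p, _, hu⟩ := hc _ (fun v _ => hsee v)
    rcases hsee p 2 (by norm_num) with h2 | ⟨u, h, h2⟩
    · rcases hsee p 3 (by norm_num) with h3 | ⟨u, h, h3⟩
      · omega
      · have := hu u h
        omega
    · have := hu u h
      omega

end Pool.Agent.Results.MP_21a028_co.Four
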